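import Pool.Agent.J4H22.RO.Key

/-!
# Random oracles and optimal proof systems: the levels

The levels of the blocks `nn b 0 < nn b 1 < …` for the candidate system `M` depend on the oracle:
the level goes up after a block in which `M` has no short proof. If `M` never proves a wrong
statement, then almost surely only finitely many of the statements are wrong, and the level tends
to infinity, so that `M` has infinitely often no short proof.
-/

set_option autoImplicit false

namespace Pool.Agent.J4H22.RO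

open MeasureTheory Filter Pool.Agent.NPC Pool.Agent.H628R3.RO
open Pool.Agent.J4H63.ESY (Ext)

/-- the blocks in use -/
def nn (b : Polynomial ℕ) : ℕ → ℕ
  | 0 => 8
  | i + 1 => 2 ^ (b.eval (2 ^ (nn b i)))

open Classical in
/-- the levels -/
noncomputable def lv (M : Alg) (k : ℕ) (b : Polynomial ℕ) (B : Oracle) : ℕ → ℕ
  | 0 => 1
  | i + 1 => lv M k b B i + if B ∈ GoodT M k (nn b i) (lv M k b B i) then 0 else 1

theorem lv_le (M : Alg) (k : ℕ) (b : Polynomial ℕ) (B : Oracle) (i : ℕ) :
    lv M k b B i ≤ i + 1 := by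
  induction i with
  | zero => exact le_rfl
  | succ i ih =>
    rw [lv]
    split_ifs <;> omega

theorem one_le_lv (M : Alg) (k : ℕ) (b : Polynomial ℕ) (B : Oracle) (i : ℕ) :
    1 ≤ lv M k b B i := by
  induction i with
  | zero => exact le_rfl
  | succ i ih =>
    rw [lv]
    omega

variable {b : Polynomial ℕ}

theorem eval_lt_nn (i : ℕ) : b.eval (2 ^ (nn b i)) < nn b (i + 1) := Nat.lt_two_pow_self

theorem nn_add_two (hb : ∀ m, 3 * m + 2 ≤ b.eval m) (i : ℕ) : nn b i + 2 ≤ nn b (i + 1) := by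
  have h1 := eval_lt_nn (b := b) i
  have h2 := hb (2 ^ (nn b i))
  have h3 : nn b i < 2 ^ (nn b i) := Nat.lt_two_pow_self
  omega

theorem nn_ge (hb : ∀ m, 3 * m + 2 ≤ b.eval m) (i : ℕ) : 2 * i + 8 ≤ nn b i := by
  induction i with
  | zero => exact le_rfl
  | succ i ih =>
    have := nn_add_two hb i
    omega

theorem nn_mono (hb : ∀ m, 3 * m + 2 ≤ b.eval m) : StrictMono (nn b) :=
  strictMono_nat_of_lt_succ fun i => by
    have := nn_add_two hb i
    omega

/-- `M` has a short proof of the statement of stage `i` with level `j` -/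
def Gd (O : Oracle → Oracle) (M : Alg) (k : ℕ) (b : Polynomial ℕ) (i j : ℕ) : Set Oracle :=
  O ⁻¹' GoodT M k (nn b i) j

/-- the level of stage `i` is `j` -/
def Vv (O : Oracle → Oracle) (M : Alg) (k : ℕ) (b : Polynomial ℕ) (i j : ℕ) : Set Oracle :=
  {A | lv M k b (O A) i = j}

/-- `M` has a short proof of the wrong statement of stage `i` -/
def Er (O : Oracle → Oracle) (M : Alg) (k : ℕ) (b : Polynomial ℕ) (i : ℕ) : Set Oracle :=
  {A | A ∈ Gd O M k b i (lv M k b (O A) i) ∧ A ∈ BadT (nn b i) (lv M k b (O A) i)}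

/-- no error before stage `i` -/
def Dd (O : Oracle → Oracle) (M : Alg) (k : ℕ) (b : Polynomial ℕ) (i : ℕ) : Set Oracle :=
  {A | ∀ i' < i, A ∉ Er O M k b i'}

section

variable {O : Oracle → Oracle} {M : Alg} {k : ℕ}

theorem loc_Gd (hO : Ext O) (hl : ∀ n j, Loc {x | x.length ≤ b.eval (2 ^ n)} (GoodT M k n j))
    (i j : ℕ) : Loc {x | x.length ≤ b.eval (2 ^ (nn b i))} (Gd O M k b i j) :=
  loc_ext hO (hl _ _)

open Classical in
theorem lv_congr (hO : Ext O) (hb : ∀ m, 3 * m + 2 ≤ b.eval m)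
    (hl : ∀ n j, Loc {x | x.length ≤ b.eval (2 ^ n)} (GoodT M k n j)) (i : ℕ) :
    ∀ A A' : Oracle, (∀ x : List Bool, x.length ≤ nn b i → A x = A' x) →
      lv M k b (O A) i = lv M k b (O A') i := by
  induction i with
  | zero => intro A A' _; rfl
  | succ i ih =>
    intro A A' h
    have h1 := ih A A' fun x hx => h x (by have := nn_add_two hb i; omega)
    have h2 := loc_Gd hO hl i (lv M k b (O A) i) A A' fun x hx => h x (by
      have := eval_lt_nn (b := b) i
      simp only [Set.mem_ofPred_eq] at hx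
      omega)
    simp only [Gd, Set.mem_preimage] at h2
    rw [lv, lv, ← h1]
    congr 1
    exact if_congr h2 rfl rfl

theorem loc_Vv (hO : Ext O) (hb : ∀ m, 3 * m + 2 ≤ b.eval m)
    (hl : ∀ n j, Loc {x | x.length ≤ b.eval (2 ^ n)} (GoodT M k n j)) (i j : ℕ) :
    Loc {x | x.length ≤ nn b i} (Vv O M k b i j) := by
  intro A A' h
  simp only [Vv, Set.mem_ofPred_eq]
  rw [lv_congr hO hb hl i A A' fun x hx => h x hx]

theorem loc_BadT' {n j : ℕ} (hb : ∀ m, 3 * m + 2 ≤ b.eval m) (hj : j ≤ n) :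
    Loc {x | x.length ≤ b.eval (2 ^ n)} (BadT n j) := by
  refine locMono (loc_BadT n j) fun x hx => ?_
  have h1 := length_le_spotsT hj x (Finset.mem_coe.1 hx)
  have h2 := hb (2 ^ n)
  have h3 : n < 2 ^ n := Nat.lt_two_pow_self
  simp only [Set.mem_ofPred_eq]
  omega

theorem lv_le_nn (hb : ∀ m, 3 * m + 2 ≤ b.eval m) (B : Oracle) (i : ℕ) :
    lv M k b B i ≤ nn b i := by
  have h1 := lv_le M k b B i
  have h2 := nn_ge hb i
  omega

theorem loc_Er (hO : Ext O) (hb : ∀ m, 3 * m + 2 ≤ b.eval m)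
    (hl : ∀ n j, Loc {x | x.length ≤ b.eval (2 ^ n)} (GoodT M k n j)) (i : ℕ) :
    Loc {x | x.length ≤ nn b (i + 1)} (Er O M k b i) := by
  intro A A' h
  have h1 := lv_congr hO hb hl i A A' fun x hx => h x (by
    have := nn_add_two hb i
    simp only [Set.mem_ofPred_eq]
    omega)
  have h0 : ∀ x : List Bool, x ∈ ({x | x.length ≤ b.eval (2 ^ (nn b i))} : Set (List Bool)) →
      A x = A' x := fun x hx => h x (by
        have := eval_lt_nn (b := b) i
        simp only [Set.mem_ofPred_eq] at hx ⊢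
        omega)
  simp only [Er, Set.mem_ofPred_eq]
  rw [← h1]
  exact and_congr (loc_Gd hO hl i _ A A' h0)
    (loc_BadT' hb (lv_le_nn (M := M) (k := k) hb (O A) i) A A' h0)

theorem loc_Dd (hO : Ext O) (hb : ∀ m, 3 * m + 2 ≤ b.eval m)
    (hl : ∀ n j, Loc {x | x.length ≤ b.eval (2 ^ n)} (GoodT M k n j)) (i : ℕ) :
    Loc {x | x.length ≤ nn b i} (Dd O M k b i) := by
  intro A A' h
  simp only [Dd, Set.mem_ofPred_eq]
  refine forall₂_congr fun i' hi' => not_congr (loc_Er hO hb hl i' A A' fun x hx => h x ?_)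
  have := (nn_mono hb).monotone (show i' + 1 ≤ i from hi')
  simp only [Set.mem_ofPred_eq] at hx ⊢
  omega

theorem Loc.inter' {K : Set (List Bool)} {S S' : Set Oracle} (h : Loc K S) (h' : Loc K S') :
    Loc K (S ∩ S') := fun A A' hA => and_congr (h A A' hA) (h' A A' hA)

theorem Dd_succ (i : ℕ) : Dd O M k b (i + 1) = Dd O M k b i ∩ (Er O M k b i)ᶜ := by
  ext A
  simp only [Dd, Set.mem_ofPred_eq, Set.mem_inter_iff, Set.mem_compl_iff]
  constructor
  · intro h
    exact ⟨fun i' hi' => h i' (by omega), h i (by omega)⟩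
  · rintro ⟨h1, h2⟩ i' hi'
    rcases Nat.lt_succ_iff_lt_or_eq.1 hi' with h | rfl
    · exact h1 i' h
    · exact h2

/-- the partition by the level -/
theorem part {S : Set Oracle} (hS : MeasurableSet S) (i : ℕ)
    (hV : ∀ j, MeasurableSet (Vv O M k b i j)) :
    ∑ j ∈ Finset.range (i + 2), prob (S ∩ Vv O M k b i j) = prob S := by
  have h1 : S = ⋃ j ∈ Finset.range (i + 2), S ∩ Vv O M k b i j := by
    ext A
    simp only [Set.mem_iUnion, Set.mem_inter_iff, exists_prop, Finset.mem_range, Vv,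
      Set.mem_ofPred_eq]
    constructor
    · intro h
      have := lv_le M k b (O A) i
      exact ⟨_, by omega, h, rfl⟩
    · rintro ⟨_, _, h, _⟩
      exact h
  conv_rhs => rw [h1]
  unfold prob
  rw [measureReal_biUnion_finset]
  · intro j _ j' _ hne
    refine Set.disjoint_left.2 ?_
    rintro A ⟨_, h2⟩ ⟨_, h3⟩
    exact hne (h2.symm.trans h3)
  · exact fun j _ => hS.inter (hV j)

end

end Pool.Agent.J4H22.RO
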