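import Pool.Agent.H628R3.RO.E1
import Pool.Agent.H628R3.RO.A2
import Pool.Agent.J4H22.RO.Stage

/-!
# Random oracles and optimal proof systems: the levels are computed in polynomial time

Given a pad of length `N`, all strings of length at most `log N` can be asked, and the levels of
the stages below are found by exhaustive search.
-/

set_option autoImplicit false

namespace Pool.Agent.J4H22.RO

open Pool.Agent.NPC Pool.Agent.H628R3.RO

/-- `M` has a short proof; for a finite oracle -/
def gdB (M : Alg) (k : ℕ) (S : List (List Bool)) (n j : ℕ) : Bool :=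
  (strs (2 ^ n)).any (fun u => decide (u.length ^ k ≤ 2 ^ n) &&
    decide (M.out (ofL S) u = some (code n j)))

theorem gdB_iff (M : Alg) {k : ℕ} (hk : 1 ≤ k) (S : List (List Bool)) (n j : ℕ) :
    gdB M k S n j = true ↔ ofL S ∈ GoodT M k n j := by
  rw [gdB, List.any_eq_true]
  constructor
  · rintro ⟨u, _, h⟩
    rw [Bool.and_eq_true, decide_eq_true_eq, decide_eq_true_eq] at h
    exact ⟨u, h⟩
  · rintro ⟨u, hu, h⟩
    refine ⟨u, mem_strs.2 ((Nat.le_self_pow (by omega) _).trans hu), ?_⟩
    rw [Bool.and_eq_true, decide_eq_true_eq, decide_eq_true_eq]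
    exact ⟨hu, h⟩

/-- one step of the computation of the levels -/
def step (M : Alg) (k : ℕ) (b : Polynomial ℕ) (S : List (List Bool)) (N : ℕ) (s : ℕ × ℕ) : ℕ × ℕ :=
  bif decide (min s.1 N < N.size) then
    (bif decide (b.eval (2 ^ (min s.1 N)) < N.size) then
      (2 ^ (b.eval (2 ^ (min s.1 N))),
        s.2 + bif gdB M k S (min s.1 N) (min s.2 N) then 0 else 1) else s)
  else s

/-- the output for a pad of length `N` -/
def fin (M : Alg) (k : ℕ) (b : Polynomial ℕ) (S : List (List Bool)) (N : ℕ) : List Bool :=
  bif decide (((step M k b S N)^[N] (8, 1)).1 = N) then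
    code (min ((step M k b S N)^[N] (8, 1)).1 N) (min ((step M k b S N)^[N] (8, 1)).2 N) else []

theorem p_bcond {α β : Type} [TEnc α] [TEnc β] {c : α → Bool} {f g : α → β} (hc : Poly c)
    (hf : Poly (fun a : {a // c a = true} => f a.1)) (hg : Poly g) :
    Poly (fun a => bif c a then f a else g a) := by
  refine (Poly.dcond (b := c) (f := fun a => f a.1) (g := fun a => g a.1) hc hf
    (hg.comp (Poly.val _))).congr fun a => ?_
  by_cases h : c a = true
  · rw [dif_pos h, h]; rfl
  · rw [dif_neg h]
    have h2 : c a = false := by simpa using h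
    show g a = _
    rw [h2]; rfl

theorem u_size {α : Type} [TEnc α] {N : α → ℕ} (hN : UPoly N) : UPoly (fun a => (N a).size) :=
  (UPoly.length (Poly.natBits hN.toPoly)).congr fun a => by
    change List.replicate (N a).bits.length () = _
    rw [Nat.size_eq_bits_len]

theorem p_gdB (M : Alg) (k : ℕ) {α : Type} [TEnc α] {S : α → List (List Bool)} {n j N : α → ℕ}
    (hS : Poly S) (hn : UPoly n) (hj : UPoly j) (hN : UPoly N)
    (h : ∀ a, 2 ^ (2 ^ (n a)) ≤ N a) : Poly (fun a => gdB M k (S a) (n a) (j a)) := by
  have hn' : UPoly (fun a => 2 ^ (n a)) :=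
    u_pow hn hN fun a => (Nat.pow_le_pow_right (by norm_num) Nat.lt_two_pow_self.le).trans (h a)
  refine Poly.any (p := fun a u => decide (u.length ^ k ≤ 2 ^ (n a)) &&
    decide (M.out (ofL (S a)) u = some (code (n a) (j a)))) (p_strs hn' hN h) ?_
  have h1 : Poly (fun p : α × List Bool => p.1) := Poly.fst Poly.id
  have h2 : Poly (fun p : α × List Bool => p.2) := Poly.snd Poly.id
  refine Poly.and ?_ ?_
  · have h3 : UPoly (fun p : α × List Bool => p.2.length ^ k) :=
      (UPoly.eval (UPoly.length h2) (Polynomial.X ^ k)).congr fun p => by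
        simp only [Polynomial.eval_pow, Polynomial.eval_X]
    exact (Poly.decide_le h3.toPoly (hn'.comp h1).toPoly).congr fun p =>
      decide_eq_decide.2 Iff.rfl
  · exact (Poly.decide_eq (p_out M (hS.comp h1) h2)
      (Poly.some (p_code (hn.comp h1) (hj.comp h1)))).congr fun a => decide_eq_decide.2 Iff.rfl

theorem p_step (M : Alg) (k : ℕ) (b : Polynomial ℕ) (hb : ∀ m, 3 * m + 2 ≤ b.eval m) {α : Type}
    [TEnc α] {S : α → List (List Bool)} {N : α → ℕ} {s : α → ℕ × ℕ} (hS : Poly S) (hN : UPoly N)
    (hs : Poly s) : Poly (fun a => step M k b (S a) (N a) (s a)) := by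
  have hT : UPoly (fun a => min (s a).1 (N a)) :=
    UPoly.of_le (Poly.min (Poly.fst hs) hN.toPoly) hN fun a => min_le_right _ _
  have hj : UPoly (fun a => min (s a).2 (N a)) :=
    UPoly.of_le (Poly.min (Poly.snd hs) hN.toPoly) hN fun a => min_le_right _ _
  unfold step
  refine p_bcond (Poly.decide_lt hT.toPoly (u_size hN).toPoly) ?_ hs
  have v1 : Poly (fun a : {a // decide (min (s a).1 (N a) < (N a).size) = true} => a.1) :=
    Poly.val _
  have hT2 : UPoly (fun a : {a // decide (min (s a).1 (N a) < (N a).size) = true} =>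
      2 ^ (min (s a.1).1 (N a.1))) :=
    u_pow (hT.comp v1) (hN.comp v1) fun a => Nat.lt_size.1 (by simpa using a.2)
  have he : UPoly (fun a : {a // decide (min (s a).1 (N a) < (N a).size) = true} =>
      b.eval (2 ^ (min (s a.1).1 (N a.1)))) := hT2.eval b
  refine p_bcond (Poly.decide_lt he.toPoly ((u_size hN).comp v1).toPoly) ?_ (hs.comp v1)
  have v2 := Poly.val (fun a : {a // decide (min (s a).1 (N a) < (N a).size) = true} =>
    decide (b.eval (2 ^ (min (s a.1).1 (N a.1))) < (N a.1).size) = true)
  have v3 := v1.comp v2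
  have hpad := fun (a : {a : {a // decide (min (s a).1 (N a) < (N a).size) = true} //
    decide (b.eval (2 ^ (min (s a.1).1 (N a.1))) < (N a.1).size) = true}) =>
      (Nat.lt_size.1 (by simpa using a.2) : 2 ^ (b.eval (2 ^ (min (s a.1.1).1 (N a.1.1)))) ≤ N a.1.1)
  refine Poly.pair ?_ ?_
  · exact (u_pow (he.comp v2) (hN.comp v3) hpad).toPoly
  · refine Poly.add (Poly.snd (hs.comp v3)) (Poly.cond (p_gdB M k (hS.comp v3) (hT.comp v3)
      (hj.comp v3) (hN.comp v3) fun a => ?_) (NPC.Poly.const 0) (NPC.Poly.const 1))
    refine (Nat.pow_le_pow_right (by norm_num) ?_).trans (hpad a)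
    have := hb (2 ^ (min (s a.1.1).1 (N a.1.1)))
    omega

theorem step_bound (M : Alg) (k : ℕ) (b : Polynomial ℕ) (S : List (List Bool)) (N m : ℕ) :
    ((step M k b S N)^[m] (8, 1)).1 ≤ N + 8 ∧ ((step M k b S N)^[m] (8, 1)).2 ≤ m + 1 := by
  induction m with
  | zero => simp
  | succ m ih =>
    rw [Function.iterate_succ_apply']
    revert ih
    generalize (step M k b S N)^[m] (8, 1) = s
    rintro ⟨h1, h2⟩
    unfold step
    cases hc : decide (min s.1 N < N.size) with
    | false => rw [cond_false]; exact ⟨h1, by omega⟩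
    | true =>
      rw [cond_true]
      cases hc' : decide (b.eval (2 ^ (min s.1 N)) < N.size) with
      | false => rw [cond_false]; exact ⟨h1, by omega⟩
      | true =>
        rw [cond_true]
        rw [decide_eq_true_eq, Nat.lt_size] at hc'
        refine ⟨?_, ?_⟩
        · show 2 ^ _ ≤ _
          omega
        · show s.2 + _ ≤ _
          cases gdB M k S (min s.1 N) (min s.2 N) <;> simp only [cond_true, cond_false] <;> omega

theorem p_fin (M : Alg) (k : ℕ) (b : Polynomial ℕ) (hb : ∀ m, 3 * m + 2 ≤ b.eval m) {α : Type}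
    [TEnc α] {S : α → List (List Bool)} {N : α → ℕ} (hS : Poly S) (hN : UPoly N) :
    Poly (fun a => fin M k b (S a) (N a)) := by
  obtain ⟨r, hr⟩ := uPoly_le hN
  have hit : Poly (fun a => (step M k b (S a) (N a))^[N a] (8, 1)) := by
    have h1 : Poly (fun p : α × (ℕ × ℕ) => p.1) := Poly.fst Poly.id
    have h2 : Poly (fun p : α × (ℕ × ℕ) => p.2) := Poly.snd Poly.id
    refine (Poly.iterLen (l := fun a => List.replicate (N a) ()) (s := fun _ => ((8, 1) : ℕ × ℕ))
      (F := fun a s => step M k b (S a) (N a) s) hN (NPC.Poly.const _)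
      (p_step M k b hb (hS.comp h1) (hN.comp h1) h2)
      (Polynomial.C 8 * r + Polynomial.C 50) ?_).congr fun a => ?_
    · intro a m hm
      rw [List.length_replicate] at hm
      have h3 := step_bound M k b (S a) (N a) m
      revert h3
      generalize (step M k b (S a) (N a))^[m] (8, 1) = s
      rintro ⟨h3, h4⟩
      obtain ⟨s1, s2⟩ := s
      have e1 := sz_nat_le s1
      have e2 := sz_nat_le s2
      have e3 : s1.size ≤ s1 := Nat.size_le.2 Nat.lt_two_pow_self
      have e4 : s2.size ≤ s2 := Nat.size_le.2 Nat.lt_two_pow_self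
      have e5 := hr a
      simp only at h3 h4
      rw [sz_pair]
      simp only [Polynomial.eval_add, Polynomial.eval_mul, Polynomial.eval_C]
      omega
    · rw [List.length_replicate]
  have hT : UPoly (fun a => min ((step M k b (S a) (N a))^[N a] (8, 1)).1 (N a)) :=
    UPoly.of_le (Poly.min (Poly.fst hit) hN.toPoly) hN fun a => min_le_right _ _
  have hj : UPoly (fun a => min ((step M k b (S a) (N a))^[N a] (8, 1)).2 (N a)) :=
    UPoly.of_le (Poly.min (Poly.snd hit) hN.toPoly) hN fun a => min_le_right _ _
  unfold fin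
  refine Poly.cond ?_ (p_code hT hj) (NPC.Poly.const _)
  exact (Poly.decide_eq (Poly.fst hit) hN.toPoly).congr fun a => decide_eq_decide.2 Iff.rfl

section

variable {M : Alg} {k : ℕ} {b : Polynomial ℕ}

/-- the meaning of the steps -/
theorem step_sem (hk : 1 ≤ k) (hb : ∀ m, 3 * m + 2 ≤ b.eval m)
    (hl : ∀ n j, Loc {x | x.length ≤ b.eval (2 ^ n)} (GoodT M k n j)) {B : Oracle}
    {S : List (List Bool)} {N : ℕ} (hS : ∀ y : List Bool, y.length < N.size → ofL S y = B y)
    (m : ℕ) : ∃ i ≤ m, (step M k b S N)^[m] (8, 1) = (nn b i, lv M k b B i) ∧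
      (i = m ∨ N < nn b (i + 1)) ∧ (nn b i ≤ N ∨ i = 0) := by
  induction m with
  | zero => exact ⟨0, le_rfl, rfl, Or.inl rfl, Or.inr rfl⟩
  | succ m ih =>
    obtain ⟨i, hi, h1, h2, h3⟩ := ih
    rw [Function.iterate_succ_apply', h1]
    by_cases hlt : nn b (i + 1) ≤ N
    · have h4 : nn b i ≤ N := by have := nn_add_two hb i; omega
      have h5 : nn b i < N.size := by
        rw [Nat.lt_size]
        refine le_trans (Nat.pow_le_pow_right (by norm_num) ?_) hlt
        have := hb (2 ^ (nn b i))
        have h6 : nn b i < 2 ^ (nn b i) := Nat.lt_two_pow_self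
        omega
      have h7 : b.eval (2 ^ (nn b i)) < N.size := Nat.lt_size.2 hlt
      have h8 : lv M k b B i ≤ N := (lv_le_nn hb B i).trans h4
      refine ⟨i + 1, by omega, ?_, ?_, Or.inl hlt⟩
      · unfold step
        dsimp only
        rw [min_eq_left h4, min_eq_left h8, decide_eq_true h5, cond_true, decide_eq_true h7,
          cond_true]
        have h9 : gdB M k S (nn b i) (lv M k b B i) = true ↔
            B ∈ GoodT M k (nn b i) (lv M k b B i) := by
          rw [gdB_iff M hk]
          refine hl _ _ _ _ fun x hx => hS x ?_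
          simp only [Set.mem_ofPred_eq] at hx
          omega
        rw [nn, lv]
        congr 1
        congr 1
        by_cases h10 : B ∈ GoodT M k (nn b i) (lv M k b B i)
        · rw [if_pos h10, h9.2 h10, cond_true]
        · rw [if_neg h10]
          have : gdB M k S (nn b i) (lv M k b B i) = false := by
            rw [← Bool.not_eq_true]
            exact fun h => h10 (h9.1 h)
          rw [this, cond_false]
      · exact Or.inl (by omega)
    · refine ⟨i, by omega, ?_, Or.inr (by omega), h3⟩
      unfold step
      dsimp only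
      cases hc : decide (min (nn b i) N < N.size) with
      | false => rw [cond_false]
      | true =>
        rw [cond_true]
        cases hc' : decide (b.eval (2 ^ (min (nn b i) N)) < N.size) with
        | false => rw [cond_false]
        | true =>
          exfalso
          rw [decide_eq_true_eq, Nat.lt_size] at hc'
          by_cases h4 : nn b i ≤ N
          · rw [min_eq_left h4] at hc'
            exact hlt hc'
          · rw [min_eq_right (by omega)] at hc'
            have h5 := hb (2 ^ N)
            have h6 : N < 2 ^ N := Nat.lt_two_pow_self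
            have h7 : N < 2 ^ (b.eval (2 ^ N)) :=
              lt_of_lt_of_le h6 (Nat.pow_le_pow_right (by norm_num) (by omega))
            omega

theorem fin_eq (hk : 1 ≤ k) (hb : ∀ m, 3 * m + 2 ≤ b.eval m)
    (hl : ∀ n j, Loc {x | x.length ≤ b.eval (2 ^ n)} (GoodT M k n j)) {B : Oracle}
    {S : List (List Bool)} {N : ℕ} (hS : ∀ y : List Bool, y.length < N.size → ofL S y = B y) :
    (∀ i, nn b i = N → fin M k b S N = code (nn b i) (lv M k b B i)) ∧
      ((∀ i, nn b i ≠ N) → fin M k b S N = []) := by
  obtain ⟨i, hi, h1, h2, h3⟩ := step_sem hk hb hl hS N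
  constructor
  · intro i₁ h4
    have h5 : i = i₁ := by
      have h6 : N < nn b (i + 1) := by
        rcases h2 with h2 | h2
        · have := nn_ge hb i
          rcases h3 with h3 | h3
          · omega
          · subst h3
            have := nn_ge hb i₁
            omega
        · exact h2
      rw [← h4] at h6
      have h7 := (nn_mono hb).lt_iff_lt.1 h6
      rcases h3 with h3 | h3
      · rw [← h4] at h3
        have := (nn_mono hb).le_iff_le.1 h3
        omega
      · omega
    subst h5
    unfold fin
    rw [h1, h4]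
    simp only [decide_true, cond_true, min_self]
    have h8 : lv M k b B i ≤ N := by rw [← h4]; exact lv_le_nn hb B i
    rw [min_eq_left h8]
  · intro h4
    unfold fin
    rw [h1]
    have : decide ((nn b i, lv M k b B i).1 = N) = false := by
      rw [decide_eq_false_iff_not]
      exact h4 i
    rw [this, cond_false]

end

/-- the queries with answer yes -/
def sel (Q : List (List Bool)) (a : List Bool) : List (List Bool) :=
  ((Q.zip a).filter (fun p => p.2)).map (fun p => p.1)

theorem ofL_sel (B : Oracle) (Q : List (List Bool)) (y : List Bool) (hy : y ∈ Q) :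
    ofL (sel Q (Q.map B)) y = B y := by
  have h1 : y ∈ sel Q (Q.map B) ↔ B y = true := by
    unfold sel
    simp only [List.mem_map, List.mem_filter]
    constructor
    · rintro ⟨⟨x, a⟩, ⟨h1, h2⟩, h3⟩
      have h4 : ∀ l : List (List Bool), (x, a) ∈ l.zip (l.map B) → a = B x := by
        intro l
        induction l with
        | nil => simp
        | cons c l ih =>
          rw [List.map_cons, List.zip_cons_cons, List.mem_cons]
          rintro (h | h)
          · simp only [Prod.mk.injEq] at h
            rw [h.1, h.2]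
          · exact ih h
      have h5 := h4 Q h1
      simp only at h3 h2
      rw [← h3, ← h5]
      exact h2
    · intro h
      refine ⟨(y, B y), ⟨?_, h⟩, rfl⟩
      have h4 : ∀ l : List (List Bool), y ∈ l → (y, B y) ∈ l.zip (l.map B) := by
        intro l
        induction l with
        | nil => simp
        | cons c l ih =>
          rw [List.map_cons, List.zip_cons_cons, List.mem_cons, List.mem_cons]
          rintro (rfl | h)
          · exact Or.inl rfl
          · exact Or.inr (ih h)
      exact h4 Q hy
  rw [ofL]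
  by_cases h : B y = true
  · rw [h]; exact decide_eq_true (h1.2 h)
  · have h2 : B y = false := by simpa using h
    rw [h2]
    exact decide_eq_false fun h3 => h (h1.1 h3)

/-- the axioms added for a pad `w` -/
def ax (M : Alg) (k : ℕ) (b : Polynomial ℕ) (B : Oracle) (w : List Bool) : List Bool :=
  fin M k b (sel (strs (w.length.size - 1)) ((strs (w.length.size - 1)).map B)) w.length

theorem isFP_ax (M : Alg) (k : ℕ) (b : Polynomial ℕ) (hb : ∀ m, 3 * m + 2 ≤ b.eval m)
    (B : Oracle) : IsFP B (ax M k b B) := by
  have hlen : UPoly (fun w : List Bool => w.length) := UPoly.length Poly.id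
  have hQ : Poly (fun w : List Bool => strs (w.length.size - 1)) := by
    have h0 : UPoly (fun w : List Bool => w.length.size - 1) :=
      UPoly.of_le (Poly.sub (u_size hlen).toPoly (NPC.Poly.const 1)) (u_size hlen)
        fun w => Nat.sub_le _ _
    refine p_strs h0 (hlen.add (UPoly.const 1)) fun w => ?_
    rcases Nat.eq_zero_or_pos w.length with h | h
    · rw [h]; simp
    · have h1 : 0 < w.length.size := Nat.size_pos.2 h
      have h2 : 2 ^ (w.length.size - 1) ≤ w.length := Nat.lt_size.1 (by omega)
      omega
  have hH : Poly (fun p : List Bool × List Bool =>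
      fin M k b (sel (strs (p.1.length.size - 1)) p.2) p.1.length) := by
    have h1 : Poly (fun p : List Bool × List Bool => p.1) := Poly.fst Poly.id
    have h2 : Poly (fun p : List Bool × List Bool => p.2) := Poly.snd Poly.id
    refine p_fin M k b hb ?_ (hlen.comp h1)
    unfold sel
    refine NPC.Poly.map (F := fun (_ : List Bool × List Bool) (q : List Bool × Bool) => q.1)
      (Poly.filter (p := fun (_ : List Bool × List Bool) (q : List Bool × Bool) => q.2)
        (Poly.zip (hQ.comp h1) h2) (Poly.snd (Poly.snd Poly.id))) (Poly.fst (Poly.snd Poly.id))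
  exact IsFP.tt (Q := fun w => strs (w.length.size - 1))
    (H := fun p => fin M k b (sel (strs (p.1.length.size - 1)) p.2) p.1.length) hQ hH

theorem ax_eq {M : Alg} {k : ℕ} {b : Polynomial ℕ} (hk : 1 ≤ k) (hb : ∀ m, 3 * m + 2 ≤ b.eval m)
    (hl : ∀ n j, Loc {x | x.length ≤ b.eval (2 ^ n)} (GoodT M k n j)) (B : Oracle)
    (w : List Bool) :
    (∀ i, nn b i = w.length → ax M k b B w = code (nn b i) (lv M k b B i)) ∧
      ((∀ i, nn b i ≠ w.length) → ax M k b B w = []) := by
  refine fin_eq hk hb hl fun y hy => ofL_sel B _ y (mem_strs.2 (by omega))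

end Pool.Agent.J4H22.RO
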