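import Pool.Agent.H628R3.RO.D2
import Pool.Agent.J4H63.ESY.Local

/-!
# Random oracles and optimal proof systems: the inequality for one block

`O` makes an oracle `O A` from the random oracle `A` (for instance `A ⊕ E`). If a system `M` has a
short proof of the statement about block `n` of level `j` with a noticeable probability, then it
also has one when the statement is false, with a probability which is smaller by the factor
`2 ^ (-j)` only.
-/

set_option autoImplicit false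

namespace Pool.Agent.J4H22.RO

open MeasureTheory Pool.Agent.NPC Pool.Agent.H628R3.RO
open Pool.Agent.J4H63.ESY (Ext)

/-- a polynomial at a small argument -/
theorem poly_sqrt (p : Polynomial ℕ) : ∃ c k : ℕ, 1 ≤ k ∧ ∀ x n : ℕ, x ^ k ≤ 2 ^ n →
    p.eval x ≤ c * 2 ^ ((n + 1) / 2) := by
  refine ⟨p.eval 1, 2 * p.natDegree + 1, by omega, fun x n hx => ?_⟩
  have h1 : p.eval x ≤ p.eval 1 * (max x 1) ^ p.natDegree := by
    rw [Polynomial.eval_eq_sum_range, Polynomial.eval_eq_sum_range, Finset.sum_mul]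
    refine Finset.sum_le_sum fun i hi => ?_
    rw [Finset.mem_range] at hi
    rw [one_pow, mul_one]
    refine Nat.mul_le_mul_left _ ?_
    exact (Nat.pow_le_pow_left (le_max_left _ _) i).trans
      (Nat.pow_le_pow_right (by omega) (by omega))
  refine h1.trans (Nat.mul_le_mul_left _ ?_)
  rcases Nat.eq_zero_or_pos x with h0 | h0
  · subst h0
    have : max 0 1 = 1 := rfl
    rw [this, one_pow]
    exact Nat.one_le_two_pow
  · rw [max_eq_left h0]
    have h2 : (x ^ p.natDegree) ^ 2 ≤ (2 ^ ((n + 1) / 2)) ^ 2 := by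
      calc (x ^ p.natDegree) ^ 2 = x ^ (2 * p.natDegree) := by rw [← pow_mul, mul_comm]
        _ ≤ x ^ (2 * p.natDegree + 1) := Nat.pow_le_pow_right h0 (by omega)
        _ ≤ 2 ^ n := hx
        _ ≤ 2 ^ ((n + 1) / 2 * 2) := Nat.pow_le_pow_right (by norm_num) (by omega)
        _ = (2 ^ ((n + 1) / 2)) ^ 2 := by rw [pow_mul]
    exact (Nat.pow_le_pow_iff_left (by norm_num)).1 h2

theorem loc_ext {O : Oracle → Oracle} (hO : Ext O) {m : ℕ} {S : Set Oracle}
    (h : Loc {x | x.length ≤ m} S) : Loc {x | x.length ≤ m} (O ⁻¹' S) := by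
  intro A A' hA
  refine h (O A) (O A') fun q hq => ?_
  obtain ⟨s, hs, hs'⟩ := hO.loc q
  exact hs' A A' (hA s (le_trans hs hq))

theorem finite_le (m : ℕ) : ({x | x.length ≤ m} : Set (List Bool)).Finite :=
  List.finite_length_le Bool m

theorem locMono {K K' : Set (List Bool)} {S : Set Oracle} (h : Loc K S) (hK : K ⊆ K') :
    Loc K' S := fun A A' hA => h A A' fun x hx => hA x (hK hx)

/-- few candidates are touched -/
theorem few_touched (m : ℕ) (W : Finset Cand) (S : Finset (List Bool)) :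
    ∃ T : Finset Cand, T.card ≤ S.card ∧ ∀ h ⊆ W, Disjoint h T → ∀ x ∈ S, x ∉ allSpots m h := by
  classical
  refine ⟨W.filter (fun κ => ∃ x ∈ S, x ∈ spots m κ), ?_, ?_⟩
  · have h1 : ∀ κ ∈ W.filter (fun κ => ∃ x ∈ S, x ∈ spots m κ), ∃ x, x ∈ S ∧ x ∈ spots m κ := by
      intro κ hκ
      exact (Finset.mem_filter.1 hκ).2
    choose! f hf using h1
    refine Finset.card_le_card_of_injOn f (fun κ hκ => (hf κ hκ).1) ?_
    intro κ hκ κ' hκ' he
    have h2 := (hf κ hκ).2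
    have h3 := (hf κ' hκ').2
    rw [he] at h2
    exact M2.spots_disjoint h2 h3
  · intro h hW hd x hx hx'
    obtain ⟨κ, hκ, hx''⟩ := M2.mem_allSpots.1 hx'
    exact Finset.disjoint_left.1 hd hκ (Finset.mem_filter.2 ⟨hW hκ, x, hx, hx''⟩)

theorem half_mul (n j c : ℕ) :
    ((c * 2 ^ ((n + 1) / 2) : ℕ) : ℝ) * (1 / 2) ^ (n + j) ≤ c * (1 / 2) ^ (n / 2) := by
  push_cast
  rw [mul_assoc]
  refine mul_le_mul_of_nonneg_left ?_ (Nat.cast_nonneg c)
  have h1 : n + j = (n + 1) / 2 + (n / 2 + j) := by omega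
  rw [h1, pow_add, ← mul_assoc, ← mul_pow]
  norm_num
  exact pow_le_pow_of_le_one (by norm_num) (by norm_num) (by omega)

/-- The inequality for one block. -/
theorem block {O : Oracle → Oracle} (hO : Ext O) (M : Alg) : ∃ (c k : ℕ) (b : Polynomial ℕ),
    1 ≤ k ∧ (∀ m, 3 * m + 2 ≤ b.eval m) ∧
    (∀ n j, Loc {x | x.length ≤ b.eval (2 ^ n)} (GoodT M k n j)) ∧
    ∀ (n j : ℕ) (τ : Set Oracle), 1 ≤ j → j ≤ n → Loc {x | x.length ≤ n} τ →
      (1 / 2 : ℝ) ^ j * prob τ ≤ 4 * (prob (τ ∩ (O ⁻¹' GoodT M k n j ∩ BadT n j)) +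
        c * (1 / 2) ^ (n / 2) * prob τ + (1 / 2) ^ j * prob (τ ∩ (O ⁻¹' GoodT M k n j)ᶜ)) := by
  classical
  obtain ⟨qb, hqb⟩ := M.out_local
  obtain ⟨c, k, hk, hck⟩ := poly_sqrt M.p
  obtain ⟨b0, hb0⟩ := loc_GoodT M hk
  refine ⟨c, k, b0 + Polynomial.C 3 * Polynomial.X + Polynomial.C 2, hk, ?_, ?_, ?_⟩
  · intro m
    simp only [Polynomial.eval_add, Polynomial.eval_mul, Polynomial.eval_C, Polynomial.eval_X]
    omega
  · intro n j
    refine locMono (hb0 n j) fun x hx => ?_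
    simp only [Set.mem_ofPred_eq, Polynomial.eval_add] at hx ⊢
    omega
  intro n j τ hj hjn hτ
  set b : Polynomial ℕ := b0 + Polynomial.C 3 * Polynomial.X + Polynomial.C 2 with hb
  have hbm : ∀ m, 3 * m + 2 ≤ b.eval m := by
    intro m
    simp only [hb, Polynomial.eval_add, Polynomial.eval_mul, Polynomial.eval_C, Polynomial.eval_X]
    omega
  set K : Set (List Bool) := {x | x.length ≤ b.eval (2 ^ n)} with hK
  have hKf : K.Finite := finite_le _
  have hn2 : n ≤ 2 ^ n := Nat.lt_two_pow_self.le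
  set Z : Set Oracle := O ⁻¹' GoodT M k n j with hZ
  have hZl : Loc K Z := by
    refine loc_ext hO (locMono (hb0 n j) fun x hx => ?_)
    simp only [Set.mem_ofPred_eq, hb, Polynomial.eval_add] at hx ⊢
    omega
  have hτl : Loc K τ := locMono hτ fun x hx => by
    have := hbm (2 ^ n)
    simp only [hK, Set.mem_ofPred_eq] at hx ⊢
    omega
  have hWK : ∀ κ ∈ blkT n, ∀ i < n + j, pos κ.1 i κ.2 ∈ K := by
    intro κ hκ i hi
    have h1 := length_le_spotsT hjn (pos κ.1 i κ.2)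
      (mem_allSpots.2 ⟨κ, hκ, i, hi, rfl⟩)
    have := hbm (2 ^ n)
    simp only [hK, Set.mem_ofPred_eq]
    omega
  have hτ' : ∀ (B : Oracle) (h : Finset Cand), h ⊆ blkT n →
      (plant (allSpots (n + j) h) B ∈ τ ↔ B ∈ τ) := by
    intro B h hh
    refine hτ _ _ fun x hx => ?_
    unfold plant
    rw [if_neg]
    intro hx'
    have h1 : x ∈ spotsT n j := by
      obtain ⟨κ, hκ, i, hi, rfl⟩ := mem_allSpots.1 hx'
      exact mem_allSpots.2 ⟨κ, hh hκ, i, hi, rfl⟩
    have h2 := lt_length_spotsT x h1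
    simp only [Set.mem_ofPred_eq] at hx
    omega
  choose s hs hs' using hO.loc
  have hkey : ∀ B ∈ NoHit (n + j) (blkT n), B ∈ Z → ∃ T : Finset Cand,
      T.card ≤ c * 2 ^ ((n + 1) / 2) ∧ ∀ h ⊆ blkT n, h.Nonempty → Disjoint h T →
        plant (allSpots (n + j) h) B ∈ Z := by
    rintro B - ⟨u, hu, hu'⟩
    obtain ⟨Q, hQ1, -, hQ3⟩ := hqb (O B) u
    obtain ⟨T, hT1, hT2⟩ := few_touched (n + j) (blkT n) (Q.image s)
    refine ⟨T, (hT1.trans Finset.card_image_le).trans (hQ1.trans (hck _ _ hu)), ?_⟩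
    intro h hh _ hd
    refine ⟨u, hu, ?_⟩
    rw [hQ3 _ fun q hq => ?_]
    · exact hu'
    · apply hs'
      unfold plant
      rw [if_neg]
      exact hT2 h hh hd _ (Finset.mem_image_of_mem s hq)
  have main := key_taut hKf hZl hZl hτl (blkT n) (by omega : 1 ≤ n + j)
    (c * 2 ^ ((n + 1) / 2)) hWK hτ' hkey
  have hcard : (blkT n).card = 2 ^ n := by
    rw [blkT, card_cands]
    simp
  rw [hcard] at main
  have hN : prob (τ ∩ NoHit (n + j) (blkT n)) =
      prob τ * (1 - (1 / 2) ^ (n + j)) ^ (2 ^ n) := by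
    rw [← hcard]
    refine prob_noHit_inter (finite_le n) hτ (n + j) (blkT n) ?_
    intro κ hκ i hi hx
    have h2 := lt_length_spotsT (j := j) _ (mem_allSpots.2 ⟨κ, hκ, i, hi, rfl⟩)
    simp only [Set.mem_ofPred_eq] at hx
    omega
  have h1 := taut_le n j
  have h2 := taut_ge n j
  set β : ℝ := 1 - (1 - (1 / 2 : ℝ) ^ (n + j)) ^ (2 ^ n) with hβ
  have hβ' : (1 - (1 / 2 : ℝ) ^ (n + j)) ^ (2 ^ n) = 1 - β := by rw [hβ]; ring
  rw [hβ'] at main hN
  have hτm : MeasurableSet τ := measurableSet_of_loc (finite_le n) hτ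
  have hZm : MeasurableSet Z := measurableSet_of_loc hKf hZl
  have hNm : MeasurableSet (NoHit (n + j) (blkT n)) := M2.measurableSet_noHit _ _
  -- decompositions
  have e1 : prob (τ ∩ NoHit (n + j) (blkT n)) ≤ prob (Z ∩ τ ∩ NoHit (n + j) (blkT n)) +
      prob (τ ∩ Zᶜ) := by
    refine (M2.prob_mono ?_).trans (M2.prob_union_le _ _)
    rintro A ⟨h3, h4⟩
    by_cases h5 : A ∈ Z
    · exact Or.inl ⟨⟨h5, h3⟩, h4⟩
    · exact Or.inr ⟨h3, h5⟩
  have e2 : prob (Z ∩ τ ∩ (NoHit (n + j) (blkT n))ᶜ) = prob (τ ∩ (Z ∩ BadT n j)) := by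
    congr 1
    ext A
    simp only [BadT, Set.mem_inter_iff]
    tauto
  rw [e2] at main
  have e3 := half_mul n j c
  have p0 : 0 ≤ prob τ := M2.prob_nonneg _
  have g0 : 0 ≤ prob (τ ∩ (Z ∩ BadT n j)) := M2.prob_nonneg _
  have z0 : 0 ≤ prob (τ ∩ Zᶜ) := M2.prob_nonneg _
  have x0 : 0 ≤ prob (Z ∩ τ ∩ NoHit (n + j) (blkT n)) := M2.prob_nonneg _
  have hy0 : (0 : ℝ) < (1 / 2) ^ j := by positivity
  have hy1 : ((1 / 2 : ℝ)) ^ j ≤ 1 / 2 := by
    calc ((1 / 2 : ℝ)) ^ j ≤ (1 / 2) ^ 1 := pow_le_pow_of_le_one (by norm_num) (by norm_num) hj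
      _ = 1 / 2 := by norm_num
  rw [pow_succ] at h2
  set y : ℝ := (1 / 2) ^ j with hy
  set g : ℝ := prob (τ ∩ (Z ∩ BadT n j)) with hg
  set z : ℝ := prob (τ ∩ Zᶜ) with hz
  set p : ℝ := prob τ with hp
  set x : ℝ := prob (Z ∩ τ ∩ NoHit (n + j) (blkT n)) with hx
  set t : ℝ := ((c * 2 ^ ((n + 1) / 2) : ℕ) : ℝ) * (1 / 2) ^ (n + j) with ht
  have ht0 : 0 ≤ t := by positivity
  have m1 : x * β ≤ g + c * (1 / 2) ^ (n / 2) * p := by
    have h3 : (g + t * p) * (1 - β) ≤ g + t * p := by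
      have : 0 ≤ g + t * p := by positivity
      nlinarith
    have h4 : t * p ≤ c * (1 / 2) ^ (n / 2) * p := mul_le_mul_of_nonneg_right e3 p0
    have h5 : x * β = x * (1 - (1 - β)) := by ring
    rw [h5]
    linarith [main]
  have m2 : (p * (1 - β) - z) * β ≤ x * β := by
    have hb0 : 0 ≤ β := le_trans (by positivity) h2
    refine mul_le_mul_of_nonneg_right ?_ hb0
    linarith
  have m3 : β * p / 2 ≤ (p * (1 - β) - z) * β + z * y := by
    have hb0 : 0 ≤ β := le_trans (by positivity) h2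
    have h6 : β ≤ 1 / 2 := h1.trans hy1
    have h7 : z * β ≤ z * y := mul_le_mul_of_nonneg_left h1 z0
    have h8 : 0 ≤ β * p * (1 / 2 - β) := mul_nonneg (mul_nonneg hb0 p0) (by linarith)
    nlinarith
  have m4 : y * p / 4 ≤ β * p / 2 := by nlinarith
  nlinarith
 
end Pool.Agent.J4H22.RO
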