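import Pool.Agent.J4H22.RO.Stage

/-!
# Random oracles and optimal proof systems: almost every oracle
-/

set_option autoImplicit false

namespace Pool.Agent.J4H22.RO

open MeasureTheory Filter Pool.Agent.NPC Pool.Agent.H628R3.RO
open Pool.Agent.J4H63.ESY (Ext)

/-- the properties of the constants of a candidate system -/
structure Cst (O : Oracle → Oracle) (M : Alg) (c k : ℕ) (b : Polynomial ℕ) : Prop where
  hb : ∀ m, 3 * m + 2 ≤ b.eval m
  hl : ∀ n j, Loc {x | x.length ≤ b.eval (2 ^ n)} (GoodT M k n j)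
  blk : ∀ (n j : ℕ) (τ : Set Oracle), 1 ≤ j → j ≤ n → Loc {x | x.length ≤ n} τ →
      (1 / 2 : ℝ) ^ j * prob τ ≤ 4 * (prob (τ ∩ (O ⁻¹' GoodT M k n j ∩ BadT n j)) +
        c * (1 / 2) ^ (n / 2) * prob τ + (1 / 2) ^ j * prob (τ ∩ (O ⁻¹' GoodT M k n j)ᶜ))

variable {O : Oracle → Oracle} {M : Alg} {c k : ℕ} {b : Polynomial ℕ}

/-- the expected weight of stage `i` -/
noncomputable def aa (O : Oracle → Oracle) (M : Alg) (k : ℕ) (b : Polynomial ℕ) (i : ℕ) : ℝ :=
  ∑ j ∈ Finset.range (i + 2), (1 / 2) ^ j * prob (Dd O M k b i ∩ Vv O M k b i j)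

/-- the expected weight of stage `i` when there is no short proof -/
noncomputable def uu (O : Oracle → Oracle) (M : Alg) (k : ℕ) (b : Polynomial ℕ) (i : ℕ) : ℝ :=
  ∑ j ∈ Finset.range (i + 2), (1 / 2) ^ j *
    prob (Dd O M k b i ∩ Vv O M k b i j ∩ (Gd O M k b i j)ᶜ)

theorem mes_Vv (hO : Ext O) (h : Cst O M c k b) (i j : ℕ) : MeasurableSet (Vv O M k b i j) :=
  measurableSet_of_loc (finite_le _) (loc_Vv hO h.hb h.hl i j)

theorem mes_Dd (hO : Ext O) (h : Cst O M c k b) (i : ℕ) : MeasurableSet (Dd O M k b i) :=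
  measurableSet_of_loc (finite_le _) (loc_Dd hO h.hb h.hl i)

theorem mes_Gd (hO : Ext O) (h : Cst O M c k b) (i j : ℕ) : MeasurableSet (Gd O M k b i j) :=
  measurableSet_of_loc (finite_le _) (loc_Gd hO h.hl i j)

theorem mes_Er (hO : Ext O) (h : Cst O M c k b) (i : ℕ) : MeasurableSet (Er O M k b i) :=
  measurableSet_of_loc (finite_le _) (loc_Er hO h.hb h.hl i)

theorem aa_nonneg (i : ℕ) : 0 ≤ aa O M k b i :=
  Finset.sum_nonneg fun j _ => mul_nonneg (by positivity) (M2.prob_nonneg _)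

theorem Vv_zero (i : ℕ) : Vv O M k b i 0 = ∅ := by
  ext A
  have := one_le_lv M k b (O A) i
  simp only [Vv, Set.mem_ofPred_eq, Set.mem_empty_iff_false, iff_false]
  omega

theorem Vv_big (i : ℕ) : Vv O M k b i (i + 2) = ∅ := by
  ext A
  have := lv_le M k b (O A) i
  simp only [Vv, Set.mem_ofPred_eq, Set.mem_empty_iff_false, iff_false]
  omega

theorem prob_empty : prob ∅ = 0 := by
  unfold prob
  exact measureReal_empty

theorem prob_le_one (S : Set Oracle) : prob S ≤ 1 := by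
  unfold prob
  exact measureReal_le_one

/-- the inequality of a stage -/
theorem stage (hO : Ext O) (h : Cst O M c k b) (i : ℕ) :
    aa O M k b i ≤ 4 * (prob (Dd O M k b i) - prob (Dd O M k b (i + 1))) +
      4 * c * (1 / 2) ^ i + 4 * uu O M k b i := by
  have hD := mes_Dd hO h i
  have hE := mes_Er hO h i
  have hV := mes_Vv hO h i
  have hnn := nn_ge h.hb i
  have h1 : ∀ j ∈ Finset.range (i + 2),
      (1 / 2 : ℝ) ^ j * prob (Dd O M k b i ∩ Vv O M k b i j) ≤
        4 * prob (Dd O M k b i ∩ Er O M k b i ∩ Vv O M k b i j) +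
        4 * c * (1 / 2) ^ i * prob (Dd O M k b i ∩ Vv O M k b i j) +
        4 * ((1 / 2) ^ j * prob (Dd O M k b i ∩ Vv O M k b i j ∩ (Gd O M k b i j)ᶜ)) := by
    intro j hj
    rcases Nat.eq_zero_or_pos j with h0 | h0
    · subst h0
      rw [Vv_zero]
      simp only [Set.inter_empty, Set.empty_inter, prob_empty]
      norm_num
    · rw [Finset.mem_range] at hj
      have hτ : Loc {x | x.length ≤ nn b i} (Dd O M k b i ∩ Vv O M k b i j) :=
        Loc.inter' (loc_Dd hO h.hb h.hl i) (loc_Vv hO h.hb h.hl i j)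
      have h2 := h.blk (nn b i) j _ h0 (by omega) hτ
      have h3 : Dd O M k b i ∩ Vv O M k b i j ∩ (O ⁻¹' GoodT M k (nn b i) j ∩ BadT (nn b i) j) =
          Dd O M k b i ∩ Er O M k b i ∩ Vv O M k b i j := by
        ext A
        simp only [Vv, Er, Gd, Set.mem_inter_iff, Set.mem_ofPred_eq, Set.mem_preimage]
        constructor
        · rintro ⟨⟨h4, rfl⟩, h5⟩
          exact ⟨⟨h4, h5⟩, rfl⟩
        · rintro ⟨⟨h4, h5⟩, rfl⟩
          exact ⟨⟨h4, rfl⟩, h5⟩
      rw [h3] at h2
      have h5 : (c : ℝ) * (1 / 2) ^ (nn b i / 2) * prob (Dd O M k b i ∩ Vv O M k b i j) ≤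
          c * (1 / 2) ^ i * prob (Dd O M k b i ∩ Vv O M k b i j) := by
        refine mul_le_mul_of_nonneg_right ?_ (M2.prob_nonneg _)
        refine mul_le_mul_of_nonneg_left ?_ (Nat.cast_nonneg c)
        exact pow_le_pow_of_le_one (by norm_num) (by norm_num) (by omega)
      have h6 : (O ⁻¹' GoodT M k (nn b i) j)ᶜ = (Gd O M k b i j)ᶜ := rfl
      rw [h6] at h2
      linarith
  have h7 := Finset.sum_le_sum h1
  rw [Finset.sum_add_distrib, Finset.sum_add_distrib, ← Finset.mul_sum, ← Finset.mul_sum,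
    ← Finset.mul_sum, part (hD.inter hE) i hV, part hD i hV] at h7
  have h8 : prob (Dd O M k b i ∩ Er O M k b i) =
      prob (Dd O M k b i) - prob (Dd O M k b (i + 1)) := by
    have := M2.prob_inter_add_compl (Dd O M k b i) hE
    rw [Dd_succ]
    linarith
  rw [h8] at h7
  have h9 : 4 * (c : ℝ) * (1 / 2) ^ i * prob (Dd O M k b i) ≤ 4 * c * (1 / 2) ^ i := by
    have := prob_le_one (Dd O M k b i)
    have h0 : (0 : ℝ) ≤ 4 * c * (1 / 2) ^ i := by positivity
    nlinarith
  exact h7.trans (by unfold uu; linarith)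

/-- the weight goes down when there is no short proof -/
theorem weight (hO : Ext O) (h : Cst O M c k b) (i : ℕ) :
    uu O M k b i ≤ 2 * (aa O M k b i - aa O M k b (i + 1)) := by
  classical
  have hG := mes_Gd hO h i
  have hsub : Dd O M k b (i + 1) ⊆ Dd O M k b i := by
    rw [Dd_succ]
    exact Set.inter_subset_left
  set g : ℕ → ℝ := fun j => prob (Dd O M k b i ∩ Vv O M k b i j ∩ Gd O M k b i j) with hg
  set n : ℕ → ℝ := fun j => prob (Dd O M k b i ∩ Vv O M k b i j ∩ (Gd O M k b i j)ᶜ) with hn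
  have hgn : ∀ j, prob (Dd O M k b i ∩ Vv O M k b i j) = g j + n j := fun j =>
    (M2.prob_inter_add_compl _ (hG j)).symm
  have h0 : prob (Dd O M k b (i + 1) ∩ Vv O M k b (i + 1) 0) = 0 := by
    rw [Vv_zero, Set.inter_empty, prob_empty]
  have h1 : ∀ j, prob (Dd O M k b (i + 1) ∩ Vv O M k b (i + 1) (j + 1)) ≤ g (j + 1) + n j := by
    intro j
    refine (M2.prob_mono ?_).trans (M2.prob_union_le _ _)
    rintro A ⟨h2, h3⟩
    have h4 := hsub h2
    simp only [Vv, Set.mem_ofPred_eq, lv] at h3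
    by_cases h5 : O A ∈ GoodT M k (nn b i) (lv M k b (O A) i)
    · rw [if_pos h5, add_zero] at h3
      rw [h3] at h5
      exact Or.inl ⟨⟨h4, h3⟩, h5⟩
    · rw [if_neg h5] at h3
      have h6 : lv M k b (O A) i = j := by omega
      rw [h6] at h5
      exact Or.inr ⟨⟨h4, h6⟩, h5⟩
  have hg0 : g 0 = 0 := by
    simp only [hg]
    rw [Vv_zero, Set.inter_empty, Set.empty_inter, prob_empty]
  have hgl : g (i + 2) = 0 := by
    simp only [hg]
    rw [Vv_big, Set.inter_empty, Set.empty_inter, prob_empty]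
  have h7 : aa O M k b (i + 1) ≤ ∑ j ∈ Finset.range (i + 2), (1 / 2 : ℝ) ^ (j + 1) *
      (g (j + 1) + n j) := by
    unfold aa
    rw [Finset.sum_range_succ', h0, mul_zero, add_zero]
    exact Finset.sum_le_sum fun j _ => mul_le_mul_of_nonneg_left (h1 j) (by positivity)
  have h8 : ∑ j ∈ Finset.range (i + 2), (1 / 2 : ℝ) ^ (j + 1) * g (j + 1) =
      ∑ j ∈ Finset.range (i + 2), (1 / 2 : ℝ) ^ j * g j := by
    have e1 := Finset.sum_range_succ' (fun j => (1 / 2 : ℝ) ^ j * g j) (i + 2)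
    have e2 := Finset.sum_range_succ (fun j => (1 / 2 : ℝ) ^ j * g j) (i + 2)
    simp only [hg0, mul_zero, add_zero] at e1
    simp only [hgl, mul_zero, add_zero] at e2
    rw [← e1, e2]
  have h9 : aa O M k b i = ∑ j ∈ Finset.range (i + 2), (1 / 2 : ℝ) ^ j * g j + uu O M k b i := by
    unfold aa uu
    rw [← Finset.sum_add_distrib]
    refine Finset.sum_congr rfl fun j _ => ?_
    rw [hgn j]
    ring
  have h10 : ∑ j ∈ Finset.range (i + 2), (1 / 2 : ℝ) ^ (j + 1) * (g (j + 1) + n j) =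
      ∑ j ∈ Finset.range (i + 2), (1 / 2 : ℝ) ^ (j + 1) * g (j + 1) + uu O M k b i / 2 := by
    unfold uu
    rw [Finset.sum_div, ← Finset.sum_add_distrib]
    refine Finset.sum_congr rfl fun j _ => ?_
    rw [pow_succ]
    ring
  rw [h10, h8] at h7
  linarith

theorem summable_aa (hO : Ext O) (h : Cst O M c k b) : Summable (aa O M k b) := by
  refine summable_of_sum_range_le (c := 4 + 8 * c + 8 * aa O M k b 0) aa_nonneg fun N => ?_
  have h1 : ∑ i ∈ Finset.range N, aa O M k b i ≤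
      4 * (prob (Dd O M k b 0) - prob (Dd O M k b N)) + 8 * c * (1 - (1 / 2) ^ N) +
        8 * (aa O M k b 0 - aa O M k b N) := by
    induction N with
    | zero => simp
    | succ N ih =>
      rw [Finset.sum_range_succ]
      have h2 := stage hO h N
      have h3 := weight hO h N
      have h4 : 8 * (c : ℝ) * (1 - (1 / 2) ^ (N + 1)) =
          8 * c * (1 - (1 / 2) ^ N) + 4 * c * (1 / 2) ^ N := by
        rw [pow_succ]
        ring
      rw [h4]
      linarith
  have h5 := prob_le_one (Dd O M k b 0)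
  have h6 : 0 ≤ prob (Dd O M k b N) := M2.prob_nonneg _
  have h7 := aa_nonneg (O := O) (M := M) (k := k) (b := b) N
  have h8 : 8 * (c : ℝ) * (1 - (1 / 2) ^ N) ≤ 8 * c := by
    have : (0 : ℝ) ≤ 8 * c * (1 / 2) ^ N := by positivity
    nlinarith
  linarith

/-- the statement of stage `i` is wrong -/
def Wr (O : Oracle → Oracle) (M : Alg) (k : ℕ) (b : Polynomial ℕ) (i : ℕ) : Set Oracle :=
  {A | A ∈ BadT (nn b i) (lv M k b (O A) i)}

theorem prob_Wr (hO : Ext O) (h : Cst O M c k b) (i : ℕ) :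
    MeasurableSet (Dd O M k b i ∩ Wr O M k b i) ∧
      prob (Dd O M k b i ∩ Wr O M k b i) ≤ aa O M k b i := by
  have hm : MeasurableSet (Wr O M k b i) := by
    refine measurableSet_of_loc (finite_le (nn b (i + 1))) ?_
    intro A A' hA
    have h1 := lv_congr hO h.hb h.hl i A A' fun x hx => hA x (by
      have := nn_add_two h.hb i
      simp only [Set.mem_ofPred_eq]
      omega)
    simp only [Wr, Set.mem_ofPred_eq]
    rw [← h1]
    exact loc_BadT' h.hb (lv_le_nn (M := M) (k := k) h.hb (O A) i) A A' fun x hx => hA x (by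
      have := eval_lt_nn (b := b) i
      simp only [Set.mem_ofPred_eq] at hx ⊢
      omega)
  refine ⟨(mes_Dd hO h i).inter hm, ?_⟩
  rw [← part ((mes_Dd hO h i).inter hm) i (mes_Vv hO h i)]
  refine Finset.sum_le_sum fun j hj => ?_
  have hτ : Loc {x | x.length ≤ nn b i} (Dd O M k b i ∩ Vv O M k b i j) :=
    Loc.inter' (loc_Dd hO h.hb h.hl i) (loc_Vv hO h.hb h.hl i j)
  have e1 : Dd O M k b i ∩ Wr O M k b i ∩ Vv O M k b i j =
      (Dd O M k b i ∩ Vv O M k b i j) ∩ (NoHit (nn b i + j) (blkT (nn b i)))ᶜ := by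
    ext A
    simp only [Vv, Wr, BadT, Set.mem_inter_iff, Set.mem_ofPred_eq]
    constructor
    · rintro ⟨⟨h4, h5⟩, rfl⟩
      exact ⟨⟨h4, rfl⟩, h5⟩
    · rintro ⟨⟨h4, rfl⟩, h5⟩
      exact ⟨⟨h4, h5⟩, rfl⟩
  have hcard : (blkT (nn b i)).card = 2 ^ (nn b i) := by
    rw [blkT, card_cands]
    simp
  have e2 := prob_noHit_inter (finite_le (nn b i)) hτ (nn b i + j) (blkT (nn b i)) (by
    intro κ hκ i' hi hx
    have h2 := lt_length_spotsT (j := j) _ (mem_allSpots.2 ⟨κ, hκ, i', hi, rfl⟩)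
    simp only [Set.mem_ofPred_eq] at hx
    omega)
  rw [hcard] at e2
  have e3 := M2.prob_inter_add_compl (Dd O M k b i ∩ Vv O M k b i j)
    (M2.measurableSet_noHit (nn b i + j) (blkT (nn b i)))
  rw [e1]
  have e4 := taut_le (nn b i) j
  have e5 : 0 ≤ prob (Dd O M k b i ∩ Vv O M k b i j) := M2.prob_nonneg _
  nlinarith

/-- for almost every oracle: if there is no error at all, then finitely many statements only are
wrong, and infinitely often there is no short proof -/
theorem ae_stage (hO : Ext O) (h : Cst O M c k b) : ∀ᵐ A ∂randomOracle,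
    (∀ i, A ∈ Dd O M k b i) → (∀ᶠ i in atTop, A ∉ Wr O M k b i) ∧
      ∃ᶠ i in atTop, O A ∉ GoodT M k (nn b i) (lv M k b (O A) i) := by
  have hs := summable_aa hO h
  have h1 : ∀ᵐ A ∂randomOracle, ∀ᶠ i in atTop, A ∉ Dd O M k b i ∩ Wr O M k b i := by
    refine ae_eventually_notMem ?_
    have h2 : ∀ i, randomOracle (Dd O M k b i ∩ Wr O M k b i) ≤
        ENNReal.ofReal (aa O M k b i) := by
      intro i
      have h3 := (prob_Wr hO h i).2
      unfold prob at h3
      rw [← ofReal_measureReal (measure_ne_top _ _)]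
      exact ENNReal.ofReal_le_ofReal h3
    refine ne_top_of_le_ne_top ?_ (ENNReal.tsum_le_tsum h2)
    rw [← ENNReal.ofReal_tsum_of_nonneg aa_nonneg hs]
    exact ENNReal.ofReal_ne_top
  have h2 : ∀ᵐ A ∂randomOracle, ∀ i₀ j : ℕ, ¬ ∀ i ≥ i₀, A ∈ Dd O M k b i ∩ Vv O M k b i j := by
    simp only [ae_all_iff]
    intro i₀ j
    have h3 : randomOracle {A | ∀ i ≥ i₀, A ∈ Dd O M k b i ∩ Vv O M k b i j} = 0 := by
      have h4 : prob {A | ∀ i ≥ i₀, A ∈ Dd O M k b i ∩ Vv O M k b i j} = 0 := by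
        refine le_antisymm ?_ (M2.prob_nonneg _)
        have h5 : Tendsto (fun i => (2 : ℝ) ^ j * aa O M k b i) atTop (nhds 0) := by
          have := hs.tendsto_atTop_zero.const_mul ((2 : ℝ) ^ j)
          simpa using this
        refine ge_of_tendsto h5 ?_
        filter_upwards [eventually_ge_atTop (max i₀ j)] with i hi
        have h6 : prob {A | ∀ i ≥ i₀, A ∈ Dd O M k b i ∩ Vv O M k b i j} ≤
            prob (Dd O M k b i ∩ Vv O M k b i j) :=
          M2.prob_mono fun A hA => hA i ((le_max_left _ _).trans hi)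
        have h7 : (1 / 2 : ℝ) ^ j * prob (Dd O M k b i ∩ Vv O M k b i j) ≤ aa O M k b i := by
          unfold aa
          refine Finset.single_le_sum (f := fun j => (1 / 2 : ℝ) ^ j *
            prob (Dd O M k b i ∩ Vv O M k b i j)) (fun j _ => mul_nonneg (by positivity)
              (M2.prob_nonneg _)) (Finset.mem_range.2 ?_)
          have := (le_max_right i₀ j).trans hi
          omega
        have h8 : (2 : ℝ) ^ j * ((1 / 2 : ℝ) ^ j * prob (Dd O M k b i ∩ Vv O M k b i j)) =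
            prob (Dd O M k b i ∩ Vv O M k b i j) := by
          rw [← mul_assoc, ← mul_pow]
          norm_num
        have h9 := mul_le_mul_of_nonneg_left h7 (by positivity : (0 : ℝ) ≤ 2 ^ j)
        rw [h8] at h9
        linarith
      rw [prob, measureReal_eq_zero_iff] at h4
      exact h4
    exact measure_eq_zero_iff_ae_notMem.1 h3
  filter_upwards [h1, h2] with A h3 h4 hD
  refine ⟨?_, ?_⟩
  · filter_upwards [h3] with i h5 h6
    exact h5 ⟨hD i, h6⟩
  · rw [Filter.frequently_atTop]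
    by_contra hcon
    push Not at hcon
    obtain ⟨i₀, hi₀⟩ := hcon
    refine h4 i₀ (lv M k b (O A) i₀) fun i hi => ⟨hD i, ?_⟩
    induction i, hi using Nat.le_induction with
    | base => rfl
    | succ i hi ih =>
      simp only [Vv, Set.mem_ofPred_eq] at ih ⊢
      rw [lv, if_pos (hi₀ i hi), add_zero, ih]

end Pool.Agent.J4H22.RO
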