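import Pool.Agent.H628R3.RO.G1
import Pool.Agent.J4H63.ESY.Final
import Pool.Agent.J4H22.RO.Sum
import Pool.Agent.J4H22.RO.Comp

/-!
# Random oracles and optimal proof systems: the theorem
-/

set_option autoImplicit false

namespace Pool.Agent.J4H22.RO

open MeasureTheory Filter Pool.Agent.NPC Pool.Agent.H628R3.RO
open Pool.Agent.J4H63.ESY (Ext)

/-- the language of the true statements -/
def LT (A : Oracle) : Set (List Bool) := {x | x = [] ∨ A ∉ BadT (siz x) (lvl x)}

theorem isCoNP_LT' {O : Oracle → Oracle} (hO : Ext O) (A : Oracle) : IsCoNP (O A) (LT A) := by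
  obtain ⟨g, hg, hg'⟩ := hO.emb
  have hmap : ∀ l : List (List Bool), (l.map g).map (O A) = l.map A := by
    intro l
    rw [List.map_map]
    exact List.map_congr_left fun s _ => hg' A s
  refine isNP_of_tt (O A) _
    (Q := fun p => (asks (siz p.1 + lvl p.1) 0 p.2).map g)
    (T := fun p => !(decide (p.1.1 = [])) &&
      (decide (p.1.2.length = siz p.1.1) && p.2.all id)) ?_ ?_ Polynomial.X fun x => ?_
  · exact NPC.Poly.map (F := fun (_ : List Bool × List Bool) (x : List Bool) => g x)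
      (p_asks (UPoly.add (u_siz (Poly.fst Poly.id)) (u_lvl (Poly.fst Poly.id)))
      (UPoly.const 0) (Poly.snd Poly.id)) (hg.comp (Poly.snd Poly.id))
  · have h1 : Poly (fun p : (List Bool × List Bool) × List Bool => p.1.1) :=
      Poly.fst (Poly.fst Poly.id)
    have h2 : Poly (fun p : (List Bool × List Bool) × List Bool => p.1.2) :=
      Poly.snd (Poly.fst Poly.id)
    exact Poly.and (Poly.not (Poly.decide_eq h1 (NPC.Poly.const [])))
      (Poly.and (Poly.decide_eq (Poly.length h2) (u_siz h1).toPoly) (p_all_id (Poly.snd Poly.id)))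
  · simp only [LT, Set.mem_compl_iff, Set.mem_ofPred_eq, not_or, not_not, Bool.and_eq_true,
      Bool.not_eq_true', decide_eq_false_iff_not, decide_eq_true_eq, hmap, asks_all,
      Polynomial.eval_X]
    constructor
    · rintro ⟨hx, hA⟩
      unfold BadT blkT at hA
      rw [Set.mem_compl_iff, not_mem_noHit] at hA
      obtain ⟨κ, hκ, hh⟩ := hA
      rw [mem_cands, Finset.mem_singleton] at hκ
      obtain ⟨c, w⟩ := κ
      obtain ⟨rfl, hw⟩ := hκ
      have := siz_add_lvl x
      refine ⟨w, ?_, hx, hw, hh⟩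
      simp only at hw
      omega
    · rintro ⟨w, -, hx, hw, hh⟩
      refine ⟨hx, ?_⟩
      unfold BadT blkT
      rw [Set.mem_compl_iff, not_mem_noHit]
      exact ⟨(0, w), mem_cands.2 ⟨Finset.mem_singleton_self _, hw⟩, hh⟩

theorem code_mem_LT (A : Oracle) (n j : ℕ) : code n j ∈ LT A ↔ A ∉ BadT n j := by
  have h : code n j ≠ [] := by
    unfold code
    simp
  simp only [LT, Set.mem_ofPred_eq, h, false_or, siz_code, lvl_code]

/-- the new proof system -/
def newSys (M : Alg) (k : ℕ) (b : Polynomial ℕ) (B : Oracle) (N₀ : ℕ) (P : List Bool → List Bool)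
    (w : List Bool) : List Bool :=
  if w.head? = some true then (if N₀ ≤ w.tail.length then ax M k b B w.tail else []) else P w.tail

theorem newSys_isFP (M : Alg) (k : ℕ) (b : Polynomial ℕ) (hb : ∀ m, 3 * m + 2 ≤ b.eval m)
    (B : Oracle) (N₀ : ℕ) {P : List Bool → List Bool} (hP : IsFP B P) :
    IsFP B (newSys M k b B N₀ P) := by
  have ht : IsFP B (fun w : List Bool => w.tail) := IsFP.of_poly (Poly.tail Poly.id)
  have h1 : IsFP B (fun w => ax M k b B w.tail) := IsFP.comp (isFP_ax M k b hb B) ht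
  refine IsFP.seq (φ := fun p => p.1.tail)
    (ψ := fun p => if p.1.head? = some true then
      (if N₀ ≤ p.1.tail.length then p.2.1 else []) else p.2.2) h1 hP ?_ ?_
  · exact Poly.tail (Poly.fst Poly.id)
  · refine Poly.ite (Poly.decide_eq (Poly.head? (Poly.fst Poly.id)) (NPC.Poly.const _)) ?_ ?_
    · refine Poly.ite (Poly.decide_le (NPC.Poly.const N₀)
        (Poly.length (Poly.tail (Poly.fst Poly.id)))) ?_ (NPC.Poly.const _)
      exact Poly.fst (Poly.snd Poly.id)
    · exact Poly.snd (Poly.snd Poly.id)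

/-- the property of a typical oracle, for the algorithm `M` -/
def Typ (O : Oracle → Oracle) (M : Alg) (A : Oracle) : Prop :=
  ∀ P : List Bool → List Bool, (∀ x, M.out (O A) x = some (P x)) → Set.range P = LT A →
    ∃ (Q : List Bool → List Bool) (k : ℕ), IsProofSystem (O A) (LT A) Q ∧
      ∀ N : ℕ, ∃ (w : List Bool) (n j : ℕ), N ≤ n ∧ j ≤ n ∧ w.length = n + 1 ∧
        Q w = code n j ∧ ∀ v, P v = code n j → 2 ^ n < v.length ^ k

theorem ae_typ {O : Oracle → Oracle} (hO : Ext O) (M : Alg) : ∀ᵐ A ∂randomOracle, Typ O M A := by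
  obtain ⟨c, k, b, hk, hb, hl, hblk⟩ := block hO M
  have hC : Cst O M c k b := ⟨hb, hl, hblk⟩
  filter_upwards [ae_stage hO hC] with A hA
  intro P hP hr
  have hD : ∀ i, A ∈ Dd O M k b i := by
    intro i i' _ hE
    obtain ⟨⟨u, _, hu⟩, h2⟩ := hE
    rw [hP] at hu
    have h3 : code (nn b i') (lv M k b (O A) i') ∈ LT A := by
      rw [← hr]
      exact ⟨u, Option.some.inj hu⟩
    rw [code_mem_LT] at h3
    exact h3 h2
  obtain ⟨h1, h2⟩ := hA hD
  obtain ⟨i₀, hi₀⟩ := eventually_atTop.1 h1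
  refine ⟨newSys M k b (O A) (nn b i₀) P, k, ⟨newSys_isFP M k b hb (O A) _ ⟨M, hP⟩, ?_⟩, ?_⟩
  · ext x
    constructor
    · rintro ⟨w, rfl⟩
      unfold newSys
      split_ifs with h3 h4
      · by_cases h5 : ∃ i, nn b i = w.tail.length
        · obtain ⟨i, hi⟩ := h5
          rw [(ax_eq hk hb hl (O A) w.tail).1 i hi, code_mem_LT]
          refine hi₀ i ?_
          rw [← hi] at h4
          exact (nn_mono hb).le_iff_le.1 h4
        · push Not at h5
          rw [(ax_eq hk hb hl (O A) w.tail).2 h5]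
          exact Or.inl rfl
      · exact Or.inl rfl
      · rw [← hr]
        exact ⟨_, rfl⟩
    · intro hx
      rw [← hr] at hx
      obtain ⟨v, hv⟩ := hx
      refine ⟨false :: v, ?_⟩
      unfold newSys
      rw [if_neg (by simp), List.tail_cons, hv]
  · intro N
    obtain ⟨i, hi, hi'⟩ := frequently_atTop.1 h2 (max i₀ N)
    have hiN : N ≤ nn b i := by
      have := nn_ge hb i
      have := (le_max_right i₀ N).trans hi
      omega
    refine ⟨true :: List.replicate (nn b i) true, nn b i, lv M k b (O A) i, hiN,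
      lv_le_nn hb (O A) i, by simp, ?_, ?_⟩
    · unfold newSys
      rw [if_pos (by simp), List.tail_cons, if_pos]
      · exact (ax_eq hk hb hl (O A) _).1 i (by simp)
      · rw [List.length_replicate]
        exact (nn_mono hb).monotone ((le_max_left _ _).trans hi)
    · intro v hv
      by_contra hcon
      push Not at hcon
      exact hi' ⟨v, hcon, by rw [hP, hv]⟩

theorem growth (m : ℕ) : ∃ n₁ : ℕ, ∀ n ≥ n₁, (4 * n + 3) ^ m < 2 ^ n := by
  have h1 := (isLittleO_pow_const_const_pow_of_one_lt (R := ℝ) m (r := 2) (by norm_num)).def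
    (c := 1 / (2 * 7 ^ m)) (by positivity)
  obtain ⟨n₁, hn₁⟩ := eventually_atTop.1 h1
  refine ⟨max n₁ 1, fun n hn => ?_⟩
  have h2 := hn₁ n ((le_max_left _ _).trans hn)
  have h3 : 1 ≤ n := (le_max_right _ _).trans hn
  have h4 : (4 * n + 3) ^ m ≤ (7 * n) ^ m := Nat.pow_le_pow_left (by omega) m
  have h5 : ((7 * n) ^ m : ℝ) < 2 ^ n := by
    rw [Real.norm_eq_abs, Real.norm_eq_abs, abs_of_nonneg (by positivity),
      abs_of_nonneg (by positivity)] at h2
    rw [mul_pow]
    have h6 : (0 : ℝ) < 7 ^ m := by positivity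
    have h7 : (0 : ℝ) < 2 ^ n := by positivity
    calc (7 : ℝ) ^ m * n ^ m ≤ 7 ^ m * (1 / (2 * 7 ^ m) * 2 ^ n) :=
          mul_le_mul_of_nonneg_left h2 h6.le
      _ = 2 ^ n / 2 := by field_simp
      _ < 2 ^ n := by linarith
  have h6 : (7 * n) ^ m < 2 ^ n := by exact_mod_cast h5
  omega

/-- the lower bound survives the overhead of the reduction -/
theorem lower {k n y : ℕ} (h1 : (4 * n + 3) ^ (3 * k) < 2 ^ n) (h2 : 3 * k + 2 ≤ n)
    (h3 : 2 ^ n < (4 * n + 3 + y) ^ k) : 2 ^ (n + 2) ≤ y ^ (3 * k) := by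
  by_contra hcon
  push Not at hcon
  have h4 : (max y (4 * n + 3)) ^ (3 * k) < 2 ^ (n + 2) := by
    rcases le_total y (4 * n + 3) with h | h
    · rw [max_eq_right h]
      exact h1.trans (Nat.pow_lt_pow_right (by norm_num) (by omega))
    · rw [max_eq_left h]
      exact hcon
  have h5 : 4 * n + 3 + y ≤ 2 * max y (4 * n + 3) := by omega
  have h6 : 2 ^ n < (2 * max y (4 * n + 3)) ^ k := h3.trans_le (Nat.pow_le_pow_left h5 k)
  have h7 : (2 ^ n) ^ 3 < ((2 * max y (4 * n + 3)) ^ k) ^ 3 :=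
    Nat.pow_lt_pow_left h6 (by norm_num)
  have h8 : ((2 * max y (4 * n + 3)) ^ k) ^ 3 =
      2 ^ (3 * k) * (max y (4 * n + 3)) ^ (3 * k) := by
    rw [← pow_mul, mul_comm k 3, mul_pow]
  have h9 : 2 ^ (3 * k) * (max y (4 * n + 3)) ^ (3 * k) < 2 ^ (3 * k) * 2 ^ (n + 2) :=
    Nat.mul_lt_mul_of_pos_left h4 (by positivity)
  rw [h8, ← pow_mul] at h7
  rw [← pow_add] at h9
  have h10 := (Nat.pow_lt_pow_iff_right (by norm_num : 1 < 2)).1 (h7.trans h9)
  omega

/-- almost every oracle: every proof system of a `coNP`-hard language has exponentially long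
proofs of statements with short proofs in another system -/
theorem main {O : Oracle → Oracle} (hO : Ext O) : ∀ᵐ A ∂randomOracle,
    ∀ (L : Set (List Bool)) (P : List Bool → List Bool), CoNPHardRel (O A) L →
      IsProofSystem (O A) L P → ∃ (Q : List Bool → List Bool) (k : ℕ),
        IsProofSystem (O A) L Q ∧ ∀ N : ℕ, ∃ w : List Bool, N ≤ w.length ∧
          ∀ v, P v = Q w → 2 ^ w.length ≤ v.length ^ k := by
  have h0 : ∀ᵐ A ∂randomOracle, ∀ M : Alg, Typ O M A :=
    ae_all_iff.2 fun M => ae_typ hO M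
  filter_upwards [h0] with A hA L P hL hP
  obtain ⟨F, hF, hr⟩ := hL (LT A) (isCoNP_LT' hO A)
  have hnil : ([] : List Bool) ∈ LT A := Or.inl rfl
  have hP₀ := backSys_isProofSystem hP hF hr hnil
  obtain ⟨⟨M, hM⟩, hrange⟩ := hP₀
  obtain ⟨Q₀, k, hQ₀, hlow⟩ := hA M _ hM hrange
  refine ⟨addSys F P Q₀, 3 * k, addSys_isProofSystem hP hF hr hQ₀, fun N => ?_⟩
  obtain ⟨n₁, hn₁⟩ := growth (3 * k)
  obtain ⟨w, n, j, hn, hj, hw, hQw, hv⟩ := hlow (max (max n₁ (3 * k + 2)) N)
  have e1 : n₁ ≤ n := ((le_max_left _ _).trans (le_max_left _ _)).trans hn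
  have e2 : 3 * k + 2 ≤ n := ((le_max_right _ _).trans (le_max_left _ _)).trans hn
  have e3 : N ≤ n := (le_max_right _ _).trans hn
  refine ⟨true :: w, by rw [List.length_cons]; omega, fun v h => ?_⟩
  rw [addSys_true, hQw] at h
  have h2 := hv (pairBits (code n j) v) (backSys_pair h)
  have h3 : (code n j).length = j + n + 1 := by
    unfold code
    simp only [List.length_append, List.length_replicate, List.length_cons]
    omega
  rw [length_pairBits, h3] at h2
  have h4 : 2 ^ n < (4 * n + 3 + v.length) ^ k :=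
    h2.trans_le (Nat.pow_le_pow_left (by omega) k)
  rw [List.length_cons, hw]
  exact lower (hn₁ n e1) e2 h4

/-- polynomials are smaller than exponential functions -/
theorem growth' (q : Polynomial ℕ) (k : ℕ) : ∃ n₁ : ℕ, ∀ n ≥ n₁, (q.eval n) ^ k < 2 ^ n := by
  have hq : ∀ n, 1 ≤ n → q.eval n ≤ q.eval 1 * n ^ q.natDegree := by
    intro n hn
    rw [Polynomial.eval_eq_sum_range, Polynomial.eval_eq_sum_range, Finset.sum_mul]
    refine Finset.sum_le_sum fun i hi => ?_
    rw [Finset.mem_range] at hi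
    rw [one_pow, mul_one]
    exact Nat.mul_le_mul_left _ (Nat.pow_le_pow_right (by omega) (by omega))
  obtain ⟨n₁, hn₁⟩ := growth ((q.natDegree + 1) * k)
  refine ⟨max n₁ (max (q.eval 1) 1), fun n hn => ?_⟩
  have e1 : n₁ ≤ n := (le_max_left _ _).trans hn
  have e2 : q.eval 1 ≤ n := ((le_max_left _ _).trans (le_max_right _ _)).trans hn
  have e3 : 1 ≤ n := ((le_max_right _ _).trans (le_max_right _ _)).trans hn
  refine lt_of_le_of_lt ?_ (hn₁ n e1)
  rw [pow_mul]
  refine Nat.pow_le_pow_left ?_ k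
  calc q.eval n ≤ q.eval 1 * n ^ q.natDegree := hq n e3
    _ ≤ n * n ^ q.natDegree := Nat.mul_le_mul_right _ e2
    _ = n ^ (q.natDegree + 1) := by rw [pow_succ, mul_comm]
    _ ≤ (4 * n + 3) ^ (q.natDegree + 1) := Nat.pow_le_pow_left (by omega) _

theorem not_optimal {A : Oracle} {L : Set (List Bool)}
    (h : ∀ P, IsProofSystem A L P → ∃ (Q : List Bool → List Bool) (k : ℕ),
        IsProofSystem A L Q ∧ ∀ N : ℕ, ∃ w : List Bool, N ≤ w.length ∧
          ∀ v, P v = Q w → 2 ^ w.length ≤ v.length ^ k) : ∀ P, ¬ IsOptimal A L P := by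
  rintro P ⟨hP, hopt⟩
  obtain ⟨Q, k, hQ, hlow⟩ := h P hP
  obtain ⟨q, hq⟩ := hopt Q hQ
  obtain ⟨n₁, hn₁⟩ := growth' q k
  obtain ⟨w, hw, hv⟩ := hlow n₁
  obtain ⟨v, h1, h2⟩ := hq w
  have h3 := hv v h1
  have h4 := hn₁ _ hw
  have h5 : v.length ^ k ≤ (q.eval w.length) ^ k := Nat.pow_le_pow_left h2 k
  omega

end Pool.Agent.J4H22.RO
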